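import Pool.Agent.H40.ISH.Stmts

/-!
Project ISH: module HD1 (the surface is near the interface).
-/

set_option linter.unusedVariables false

namespace Pool.ISH

open MeasureTheory Filter Topology
open scoped Classical Pointwise

namespace HD1

/-- the coordinates of the centre of a plaquette -/
noncomputable def cen (b : Bond) (j : Fin 3) : ℝ := (b.1 j : ℝ) + (if j = b.2 then 1 / 2 else 0)

/-- the centre of a plaquette -/
noncomputable def cenP (b : Bond) : E3 := WithLp.toLp 2 (cen b)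

theorem cenP_mem (b : Bond) : cenP b ∈ plaq b := by
  constructor
  · simp [cenP, cen]
  · intro j hj
    simp [cenP, cen, hj]

theorem clamp_le {Y : ℝ} {M a : ℤ} (h : |Y| ≤ (M : ℝ)) :
    |Y - ((max (-M) (min a M) : ℤ) : ℝ)| ≤ |Y - (a : ℝ)| := by
  have hY := abs_le.1 h
  rcases le_total a M with h1 | h1
  · rw [min_eq_left h1]
    rcases le_total (-M) a with h2 | h2
    · rw [max_eq_right h2]
    · rw [max_eq_left h2]
      have h2' : (a : ℝ) ≤ -(M : ℝ) := by exact_mod_cast h2
      push_cast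
      rw [abs_of_nonneg (by linarith), abs_of_nonneg (by linarith)]
      linarith
  · rw [min_eq_right h1]
    have h1' : (M : ℝ) ≤ (a : ℝ) := by exact_mod_cast h1
    have h0 : (0 : ℝ) ≤ M := (abs_nonneg Y).trans h
    have h0' : (0 : ℤ) ≤ M := by exact_mod_cast h0
    rw [max_eq_right (by omega)]
    rw [abs_of_nonpos (by linarith), abs_of_nonpos (by linarith)]
    linarith

/-- a bond of the interface near a point of the box can be replaced by one in the box -/
theorem near (hG : GAMStmt) {N : ℕ} (hN : 1 ≤ N) (A : Finset Site) {b : Bond} (hb : b ∈ Gam N A)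
    {Y : Fin 3 → ℝ} (hY : ∀ j, |Y j| ≤ (N : ℝ)) {s : ℝ} (hs : ∀ j, |Y j - cen b j| ≤ s) :
    ∃ c ∈ Gam N A, lo c ∈ Vbar N ∧ hi c ∈ Vbar N ∧ ∀ j, |Y j - cen c j| ≤ s := by
  obtain ⟨-, h2, h3, -⟩ := hG N A
  by_cases h4 : lo b ∈ Vb N
  · refine ⟨b, hb, Or.inl h4, Or.inr ⟨b.2, Or.inr ?_⟩, hs⟩
    have : hi b - ev b.2 = lo b := by simp [hi, lo]
    rw [this]
    exact h4
  by_cases h5 : hi b ∈ Vb N
  · exact ⟨b, hb, Or.inr ⟨b.2, Or.inl h5⟩, Or.inl h5, hs⟩
  have hb' := hb
  rw [← h2, mem_bd, h3 _ h4, h3 _ h5] at hb'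
  have hev := ev_le b.2 2
  rw [hi_apply] at hb'
  have hb2 : b.2 = 2 := by
    by_contra hne
    rw [ev_ne (Ne.symm hne)] at hb'
    simp at hb'
  rw [hb2, ev_same] at hb'
  have hb0 : b.1 2 = 0 := by
    have : lo b 2 = b.1 2 := rfl
    rw [this] at hb'
    by_contra hne
    apply hb'
    omega
  -- the new bond
  have key : ∀ a' c' : ℤ, (|a'| = N + 1 ∧ |c'| ≤ N ∨ |a'| ≤ N ∧ |c'| = N + 1) →
      ((![a', c', 0], 2) : Bond) ∈ Gam N A ∧ lo ((![a', c', 0], 2) : Bond) ∈ Vbar N ∧
      hi ((![a', c', 0], 2) : Bond) ∈ Vbar N := by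
    intro a' c' hac
    have e0 : ((![a', c', 0] : Site)) 0 = a' := rfl
    have e1 : ((![a', c', 0] : Site)) 1 = c' := rfl
    have e2 : ((![a', c', 0] : Site)) 2 = 0 := rfl
    have f0 : hi ((![a', c', 0], 2) : Bond) 0 = a' := by
      rw [hi_ne (show (0 : Fin 3) ≠ 2 by decide)]; rfl
    have f1 : hi ((![a', c', 0], 2) : Bond) 1 = c' := by
      rw [hi_ne (show (1 : Fin 3) ≠ 2 by decide)]; rfl
    have f2 : hi ((![a', c', 0], 2) : Bond) 2 = 1 := by
      have := hi_same ((![a', c', 0], 2) : Bond)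
      simpa [lo] using this
    have g1 : lo ((![a', c', 0], 2) : Bond) ∉ Vb N := by
      rw [mem_Vb]
      intro h
      have h0 := h 0
      have h1 := h 1
      change |a'| ≤ _ at h0
      change |c'| ≤ _ at h1
      rcases hac with h' | h' <;> omega
    have g2 : hi ((![a', c', 0], 2) : Bond) ∉ Vb N := by
      rw [mem_Vb]
      intro h
      have h0 := h 0
      have h1 := h 1
      rw [f0] at h0
      rw [f1] at h1
      rcases hac with h' | h' <;> omega
    have mV : ∀ w : Site, |w 0| ≤ N → |w 1| ≤ N → |w 2| ≤ N → w ∈ Vb N := by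
      intro w h0 h1 h2
      rw [mem_Vb]
      intro i
      fin_cases i
      · exact h0
      · exact h1
      · exact h2
    have hN' : (1 : ℤ) ≤ N := by exact_mod_cast hN
    have gg : ∀ w : Site, w 0 = a' → w 1 = c' → |w 2| ≤ 1 → w ∈ Vbar N := by
      intro w w0 w1 w2
      have ev0 : ∀ i j : Fin 3, ev i j = if j = i then 1 else 0 := by
        intro i j
        by_cases h : j = i
        · rw [if_pos h, h, ev_same]
        · rw [if_neg h, ev_ne h]
      rcases hac with ⟨h1, h2⟩ | ⟨h1, h2⟩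
      · refine Or.inr ⟨0, ?_⟩
        rcases abs_cases a' with h | h
        · right
          refine mV _ ?_ ?_ ?_ <;> simp [ev0, w0, w1] <;> first | omega | skip
          rw [abs_le] at *
          omega
        · left
          refine mV _ ?_ ?_ ?_ <;> simp [ev0, w0, w1] <;> first | omega | skip
          rw [abs_le] at *
          omega
      · refine Or.inr ⟨1, ?_⟩
        rcases abs_cases c' with h | h
        · right
          refine mV _ ?_ ?_ ?_ <;> simp [ev0, w0, w1] <;> first | omega | skip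
          rw [abs_le] at *
          omega
        · left
          refine mV _ ?_ ?_ ?_ <;> simp [ev0, w0, w1] <;> first | omega | skip
          rw [abs_le] at *
          omega
    refine ⟨?_, gg _ rfl rfl (by simp [lo]), gg _ f0 f1 (by rw [f2]; norm_num)⟩
    rw [← h2, mem_bd, h3 _ g1, h3 _ g2, f2]
    change ¬ ((0 : ℤ) ≤ 0 ↔ (1 : ℤ) ≤ 0)
    simp
  have c0 : cen b 0 = (b.1 0 : ℝ) := by simp [cen, hb2]
  have c1 : cen b 1 = (b.1 1 : ℝ) := by simp [cen, hb2]
  have c2 : cen b 2 = 1 / 2 := by simp [cen, hb2, hb0]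
  have hs0 := hs 0
  have hs1 := hs 1
  have hs2 := hs 2
  rw [c0] at hs0
  rw [c1] at hs1
  rw [c2] at hs2
  have fin : ∀ a' c' : ℤ, (|a'| = N + 1 ∧ |c'| ≤ N ∨ |a'| ≤ N ∧ |c'| = N + 1) →
      |Y 0 - (a' : ℝ)| ≤ |Y 0 - (b.1 0 : ℝ)| → |Y 1 - (c' : ℝ)| ≤ |Y 1 - (b.1 1 : ℝ)| →
      ∃ c ∈ Gam N A, lo c ∈ Vbar N ∧ hi c ∈ Vbar N ∧ ∀ j, |Y j - cen c j| ≤ s := by
    intro a' c' hac ha hc
    obtain ⟨k1, k2, k3⟩ := key a' c' hac
    refine ⟨_, k1, k2, k3, ?_⟩
    intro j
    have d0 : cen ((![a', c', 0], 2) : Bond) 0 = (a' : ℝ) := by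
      have : (0 : Fin 3) ≠ 2 := by decide
      simp [cen, this]
    have d1 : cen ((![a', c', 0], 2) : Bond) 1 = (c' : ℝ) := by
      have : (1 : Fin 3) ≠ 2 := by decide
      simp [cen, this]
    have d2 : cen ((![a', c', 0], 2) : Bond) 2 = 1 / 2 := by
      simp [cen]
    fin_cases j
    · exact (le_of_eq (by rw [show ((⟨0, by omega⟩ : Fin 3)) = 0 from rfl, d0])).trans
        (ha.trans hs0)
    · exact (le_of_eq (by rw [show ((⟨1, by omega⟩ : Fin 3)) = 1 from rfl, d1])).trans
        (hc.trans hs1)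
    · exact (le_of_eq (by rw [show ((⟨2, by omega⟩ : Fin 3)) = 2 from rfl, d2])).trans hs2
  have hv : (N : ℤ) < |b.1 0| ∨ (N : ℤ) < |b.1 1| := by
    by_contra hcon
    push Not at hcon
    apply h4
    rw [mem_Vb]
    intro i
    fin_cases i
    · exact hcon.1
    · exact hcon.2
    · change |b.1 2| ≤ _
      rw [hb0]
      simp
  have hYM : ∀ j, |Y j| ≤ (((N : ℤ) + 1 : ℤ) : ℝ) := fun j => (hY j).trans (by push_cast; linarith)
  have hYN : ∀ j, |Y j| ≤ (((N : ℤ) : ℤ) : ℝ) := fun j => by simpa using hY j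
  by_cases h6 : (N : ℤ) < |b.1 0|
  · refine fin (max (-((N : ℤ) + 1)) (min (b.1 0) ((N : ℤ) + 1)))
      (max (-(N : ℤ)) (min (b.1 1) (N : ℤ))) (Or.inl ⟨?_, ?_⟩) (clamp_le (hYM 0)) (clamp_le (hYN 1))
    · rcases abs_cases (b.1 0) with h | h
      · rw [min_eq_right (by omega), max_eq_right (by omega), abs_of_nonneg (by omega)]
      · rw [min_eq_left (by omega), max_eq_left (by omega), abs_of_nonpos (by omega)]
        omega
    · rw [abs_le]
      omega
  · have h7 : (N : ℤ) < |b.1 1| := by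
      rcases hv with h | h
      · exact absurd h h6
      · exact h
    refine fin (b.1 0) (max (-((N : ℤ) + 1)) (min (b.1 1) ((N : ℤ) + 1)))
      (Or.inr ⟨not_lt.1 h6, ?_⟩) le_rfl (clamp_le (hYM 1))
    rcases abs_cases (b.1 1) with h | h
    · rw [min_eq_right (by omega), max_eq_right (by omega), abs_of_nonneg (by omega)]
    · rw [min_eq_left (by omega), max_eq_left (by omega), abs_of_nonpos (by omega)]
      omega

/-- a set of sites is constant in a cube which contains no centre of its boundary bonds -/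
theorem const_of {D : Set Site} {Y : Fin 3 → ℝ} {s : ℝ}
    (h : ∀ b ∈ bd D, ¬ ∀ j, |Y j - cen b j| ≤ s) :
    ∀ (n : ℕ) (w w' : Site), (∑ j, (w j - w' j).natAbs) = n → (∀ j, |(w j : ℝ) - Y j| ≤ s) →
      (∀ j, |(w' j : ℝ) - Y j| ≤ s) → (w ∈ D ↔ w' ∈ D) := by
  intro n
  induction n with
  | zero =>
    intro w w' hn hw hw'
    have : w = w' := by
      funext j
      have := (Finset.sum_eq_zero_iff.1 hn) j (Finset.mem_univ j)
      omega
    rw [this]
  | succ n ih =>
    intro w w' hn hw hw'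
    obtain ⟨j, hj⟩ : ∃ j, w j ≠ w' j := by
      by_contra hcon
      push Not at hcon
      have : w = w' := funext hcon
      rw [this] at hn
      simp at hn
    have hsum : ∀ w2 : Site, (∀ i, i ≠ j → w2 i = w i) →
        (w2 j - w' j).natAbs + 1 = (w j - w' j).natAbs → ∑ i, (w2 i - w' i).natAbs = n := by
      intro w2 h1 h2
      rw [← Finset.add_sum_erase _ _ (Finset.mem_univ j)] at hn ⊢
      have : ∑ i ∈ Finset.univ.erase j, (w2 i - w' i).natAbs =
          ∑ i ∈ Finset.univ.erase j, (w i - w' i).natAbs := by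
        refine Finset.sum_congr rfl (fun i hi => ?_)
        rw [h1 i (Finset.mem_erase.1 hi).1]
      omega
    have hwj := abs_le.1 (hw j)
    have hwj' := abs_le.1 (hw' j)
    rcases lt_or_gt_of_ne hj with hlt | hlt
    · have hlt' : (w j : ℝ) + 1 ≤ w' j := by exact_mod_cast hlt
      have w2j : (w + ev j) j = w j + 1 := by rw [Pi.add_apply, ev_same]
      have w2i : ∀ i, i ≠ j → (w + ev j) i = w i := fun i hi => by
        rw [Pi.add_apply, ev_ne hi, add_zero]
      have hb : ((w, j) : Bond) ∉ bd D := by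
        intro hb
        refine h _ hb (fun i => ?_)
        by_cases hi : i = j
        · subst hi
          simp only [cen, if_true]
          rw [abs_le]
          constructor <;> linarith
        · simp only [cen, if_neg hi, add_zero]
          rw [abs_sub_comm]
          exact hw i
      rw [mem_bd, not_not] at hb
      have hb' : w ∈ D ↔ w + ev j ∈ D := hb
      rw [hb']
      refine ih (w + ev j) w' (hsum _ w2i (by rw [w2j]; omega)) ?_ hw'
      intro i
      by_cases hi : i = j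
      · subst hi
        rw [w2j, abs_le]
        push_cast
        constructor <;> linarith
      · rw [w2i i hi]
        exact hw i
    · have hlt' : (w' j : ℝ) + 1 ≤ w j := by exact_mod_cast hlt
      have w2j : (w - ev j) j = w j - 1 := by rw [Pi.sub_apply, ev_same]
      have w2i : ∀ i, i ≠ j → (w - ev j) i = w i := fun i hi => by
        rw [Pi.sub_apply, ev_ne hi, sub_zero]
      have hb : ((w - ev j, j) : Bond) ∉ bd D := by
        intro hb
        refine h _ hb (fun i => ?_)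
        by_cases hi : i = j
        · subst hi
          simp only [cen, if_true, w2j]
          push_cast
          rw [abs_le]
          constructor <;> linarith
        · simp only [cen, if_neg hi, add_zero, w2i i hi]
          rw [abs_sub_comm]
          exact hw i
      rw [mem_bd, not_not] at hb
      have hb' : w - ev j ∈ D ↔ w ∈ D := by
        have h3 : hi ((w - ev j, j) : Bond) = w := by simp [hi]
        rw [h3] at hb
        exact hb
      rw [← hb']
      refine ih (w - ev j) w' (hsum _ w2i (by rw [w2j]; omega)) ?_ hw'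
      intro i
      by_cases hi : i = j
      · subst hi
        rw [w2j, abs_le]
        push_cast
        constructor <;> linarith
      · rw [w2i i hi]
        exact hw i

/-! ### thin layers -/

/-- the thin layer around the cube -/
def LA (u : ℝ) : Set E3 := {z | (∀ j, |z j| ≤ 1 + u) ∧ z ∉ Qc}

/-- the thin layer above height zero -/
def LB (M u : ℝ) : Set E3 := {z | (0 < z 2 ∧ z 2 ≤ u) ∧ ∀ j, |z j| ≤ M}

theorem coord_cont (j : Fin 3) : Continuous (fun z : E3 => z j) := by fun_prop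

theorem closed_box (c : ℝ) : IsClosed {z : E3 | ∀ j, |z j| ≤ c} := by
  have : {z : E3 | ∀ j, |z j| ≤ c} = ⋂ j, {z : E3 | |z j| ≤ c} := by
    ext z; simp
  rw [this]
  exact isClosed_iInter (fun j => isClosed_le (coord_cont j).abs continuous_const)

theorem dist_le_of {x y : E3} {s : ℝ} (h : ∀ j, |x j - y j| ≤ s) : dist x y ≤ 2 * s := by
  have hs : 0 ≤ s := (abs_nonneg _).trans (h 0)
  rw [EuclideanSpace.dist_eq]
  refine Real.sqrt_le_iff.2 ⟨by linarith, ?_⟩
  have h1 : ∀ j, dist (x j) (y j) ^ 2 ≤ s ^ 2 := fun j => by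
    rw [Real.dist_eq]
    exact pow_le_pow_left₀ (abs_nonneg _) (h j) 2
  calc ∑ j, dist (x j) (y j) ^ 2 ≤ ∑ _j : Fin 3, s ^ 2 := Finset.sum_le_sum (fun j _ => h1 j)
    _ = 3 * s ^ 2 := by simp
    _ ≤ (2 * s) ^ 2 := by nlinarith [sq_nonneg s]

theorem coord_le {x y : E3} (j : Fin 3) : |x j - y j| ≤ dist x y := by
  have h := PiLp.norm_apply_le (x - y) j
  rw [← dist_eq_norm] at h
  simpa using h

theorem box_lt_top (c : ℝ) : volume {z : E3 | ∀ j, |z j| ≤ c} < ⊤ := by
  refine lt_of_le_of_lt (measure_mono (t := Metric.closedBall (0 : E3) (2 * c)) ?_)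
    measure_closedBall_lt_top
  intro z hz
  rw [Metric.mem_closedBall]
  exact dist_le_of (fun j => by simpa using hz j)

theorem LA_tendsto : Tendsto (fun n : ℕ => volume (LA (1 / ((n : ℝ) + 1)))) atTop (𝓝 0) := by
  have hanti : Antitone (fun n : ℕ => LA (1 / ((n : ℝ) + 1))) := by
    intro n m hnm z hz
    refine ⟨fun j => (hz.1 j).trans ?_, hz.2⟩
    have : 1 / ((m : ℝ) + 1) ≤ 1 / ((n : ℝ) + 1) := by
      apply one_div_le_one_div_of_le (by positivity)
      have : (n : ℝ) ≤ m := by exact_mod_cast hnm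
      linarith
    linarith
  have hmeas : ∀ n : ℕ, NullMeasurableSet (LA (1 / ((n : ℝ) + 1))) volume := by
    intro n
    have : LA (1 / ((n : ℝ) + 1)) = {z : E3 | ∀ j, |z j| ≤ 1 + 1 / ((n : ℝ) + 1)} \ Qc := by
      ext z; simp [LA]
    rw [this]
    exact ((closed_box _).measurableSet.diff (closed_box 1).measurableSet).nullMeasurableSet
  have h := tendsto_measure_iInter_atTop hmeas hanti ⟨0, ?_⟩
  · have he : (⋂ n : ℕ, LA (1 / ((n : ℝ) + 1))) = ∅ := by
      rw [Set.eq_empty_iff_forall_notMem]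
      intro z hz
      rw [Set.mem_iInter] at hz
      refine (hz 0).2 (fun j => ?_)
      refine le_of_forall_pos_le_add (fun e he => ?_)
      obtain ⟨n, hn⟩ := exists_nat_one_div_lt he
      exact ((hz n).1 j).trans (by linarith)
    rw [he, measure_empty] at h
    exact h
  · refine ne_of_lt (lt_of_le_of_lt (measure_mono (fun z hz => hz.1)) (box_lt_top _))

theorem LB_tendsto (M : ℝ) :
    Tendsto (fun n : ℕ => volume (LB M (1 / ((n : ℝ) + 1)))) atTop (𝓝 0) := by
  have hanti : Antitone (fun n : ℕ => LB M (1 / ((n : ℝ) + 1))) := by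
    intro n m hnm z hz
    refine ⟨⟨hz.1.1, hz.1.2.trans ?_⟩, hz.2⟩
    apply one_div_le_one_div_of_le (by positivity)
    have : (n : ℝ) ≤ m := by exact_mod_cast hnm
    linarith
  have hmeas : ∀ n : ℕ, NullMeasurableSet (LB M (1 / ((n : ℝ) + 1))) volume := by
    intro n
    have : LB M (1 / ((n : ℝ) + 1)) = ({z : E3 | 0 < z 2} ∩ {z : E3 | z 2 ≤ 1 / ((n : ℝ) + 1)}) ∩
        {z : E3 | ∀ j, |z j| ≤ M} := by
      ext z; simp [LB]
    rw [this]
    exact (((isOpen_lt continuous_const (coord_cont 2)).measurableSet.inter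
      (isClosed_le (coord_cont 2) continuous_const).measurableSet).inter
        (closed_box _).measurableSet).nullMeasurableSet
  have h := tendsto_measure_iInter_atTop hmeas hanti ⟨0, ?_⟩
  · have he : (⋂ n : ℕ, LB M (1 / ((n : ℝ) + 1))) = ∅ := by
      rw [Set.eq_empty_iff_forall_notMem]
      intro z hz
      rw [Set.mem_iInter] at hz
      obtain ⟨n, hn⟩ := exists_nat_one_div_lt (hz 0).1.1
      have := (hz n).1.2
      linarith
    rw [he, measure_empty] at h
    exact h
  · refine ne_of_lt (lt_of_le_of_lt (measure_mono (fun z hz => hz.2)) (box_lt_top _))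

theorem layers (M : ℝ) {α : ENNReal} (hα : 0 < α) :
    ∃ N₁ : ℕ, ∀ N ≥ N₁, volume (LA (1 / (N : ℝ)) ∪ LB M (1 / (N : ℝ))) < α := by
  have hα4 : 0 < α / 2 := ENNReal.half_pos hα.ne'
  have h1 := (LA_tendsto.eventually (gt_mem_nhds hα4))
  have h2 := ((LB_tendsto M).eventually (gt_mem_nhds hα4))
  obtain ⟨n, hn⟩ := eventually_atTop.1 (h1.and h2)
  refine ⟨n + 1, fun N hN => ?_⟩
  obtain ⟨k, rfl⟩ : ∃ k, N = k + 1 := ⟨N - 1, by omega⟩
  have h3 := hn k (by omega)
  push_cast
  calc volume (LA (1 / ((k : ℝ) + 1)) ∪ LB M (1 / ((k : ℝ) + 1)))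
      ≤ volume (LA (1 / ((k : ℝ) + 1))) + volume (LB M (1 / ((k : ℝ) + 1))) :=
        measure_union_le _ _
    _ < α / 2 + α / 2 := ENNReal.add_lt_add h3.1 h3.2
    _ = α := ENNReal.add_halves α

theorem exists_alpha (t : Set E3) (ht : t.Finite) (f : E3 → ENNReal) (h : ∀ y ∈ t, 0 < f y) :
    ∃ α : ENNReal, 0 < α ∧ α ≤ 1 ∧ ∀ y ∈ t, α ≤ f y := by
  induction t, ht using Set.Finite.induction_on with
  | empty => exact ⟨1, one_pos, le_rfl, by simp⟩
  | @insert a s _ _ ih =>
    obtain ⟨α, h1, h2, h3⟩ := ih (fun y hy => h y (Set.mem_insert_of_mem _ hy))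
    refine ⟨min α (f a), lt_min h1 (h a (Set.mem_insert _ _)), (min_le_left _ _).trans h2, ?_⟩
    rintro y (rfl | hy)
    · exact min_le_right _ _
    · exact (min_le_left _ _).trans (h3 y hy)

theorem round_near (t : ℝ) : |(round t : ℝ) - t| ≤ 1 / 2 := by
  rw [abs_sub_comm]
  exact abs_sub_round t

end HD1

open HD1 in
/-- HD1 -/
theorem hd1 (hSUR : SURStmt) (hTOP : TOPStmt) (hBLW : BLWStmt) (hGAM : GAMStmt) : HD1Stmt := by
  intro K hK ε hε
  obtain ⟨hcomp, -⟩ := hSUR K hK
  set ρ : ℝ := ε / 4 with hρ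
  have hρ0 : 0 < ρ := by positivity
  obtain ⟨t, htS, htf, htc⟩ := hcomp.finite_cover_balls hρ0
  obtain ⟨α, hα0, hα1, hα⟩ := exists_alpha t htf
    (fun y => min (volume (Metric.ball y ρ ∩ extend K)) (volume (Metric.ball y ρ \ extend K)))
    (fun y hy => lt_min ((htS hy).2 ρ hρ0).1 ((htS hy).2 ρ hρ0).2)
  have hα2 : 0 < α / 2 := ENNReal.half_pos hα0.ne'
  obtain ⟨N₁, hN₁⟩ := layers (1 + ρ) hα2
  obtain ⟨N₂, hN₂⟩ := exists_nat_gt (4 / ε)
  refine ⟨α / 2, hα2, max N₁ (max N₂ 1), fun N hN A hA hv y hy => ?_⟩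
  have hNN1 : N₁ ≤ N := (le_max_left _ _).trans hN
  have hNN2 : N₂ ≤ N := ((le_max_left _ _).trans (le_max_right _ _)).trans hN
  have hN1 : 1 ≤ N := ((le_max_right _ _).trans (le_max_right _ _)).trans hN
  have hNR : (0 : ℝ) < N := by exact_mod_cast hN1
  obtain ⟨-, hbd, hout, -⟩ := hGAM N A
  have hbel := (hBLW N A hN1).1
  by_contra hcon
  push Not at hcon
  obtain ⟨y', hy't, hyy'⟩ : ∃ y' ∈ t, y ∈ Metric.ball y' ρ := by
    have := htc hy
    simpa using this
  have hy'S := htS hy't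
  have hy'Q : ∀ j, |y' j| ≤ 1 := hy'S.1
  set s : ℝ := N * ρ + 1 / 2 with hs
  set Y : Fin 3 → ℝ := fun j => (N : ℝ) * y' j with hYdef
  have hY : ∀ j, |Y j| ≤ (N : ℝ) := by
    intro j
    rw [hYdef]
    simp only
    rw [abs_mul, abs_of_pos hNR]
    nlinarith [hy'Q j]
  -- no bond of the interface is near
  have hno : ∀ b ∈ bd (Dp N A), ¬ ∀ j, |Y j - cen b j| ≤ s := by
    intro b hb hbs
    rw [hbd] at hb
    obtain ⟨c, hc, hc1, hc2, hc3⟩ := near hGAM hN1 A hb hY hbs
    have hcG : cenP c ∈ Gamma N A := by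
      rw [hTOP N A hN1]
      exact Set.mem_biUnion (show c ∈ {b | b ∈ Gam N A ∧ lo b ∈ Vbar N ∧ hi b ∈ Vbar N} from
        ⟨hc, hc1, hc2⟩) (cenP_mem c)
    have h1 := hcon _ (Set.smul_mem_smul_set (a := (N : ℝ)⁻¹) hcG)
    have h2 : dist y' ((N : ℝ)⁻¹ • cenP c) ≤ 2 * (s / N) := by
      refine dist_le_of (fun j => ?_)
      have h3 := hc3 j
      have h4 : y' j - ((N : ℝ)⁻¹ • cenP c) j = (Y j - cen c j) / N := by
        have : ((N : ℝ)⁻¹ • cenP c) j = (N : ℝ)⁻¹ * cen c j := by simp [cenP]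
        rw [this, hYdef]
        field_simp
      rw [h4, abs_div, abs_of_pos hNR]
      exact div_le_div_of_nonneg_right h3 hNR.le
    have h5 : dist y y' < ρ := Metric.mem_ball.1 hyy'
    have h6 := dist_triangle y y' ((N : ℝ)⁻¹ • cenP c)
    have h7 : 2 * (s / N) = ε / 2 + 1 / N := by
      rw [hs, hρ]
      field_simp
      ring
    have h8 : 1 / (N : ℝ) < ε / 4 := by
      have h9 : 4 / ε < N := lt_of_lt_of_le hN₂ (by exact_mod_cast hNN2)
      rw [div_lt_iff₀ hNR]
      rw [div_lt_iff₀ hε] at h9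
      nlinarith
    linarith
  -- the site of a point
  have hsite : ∀ z ∈ Metric.ball y' ρ, ∀ j, |((round ((N : ℝ) * z j) : ℤ) : ℝ) - Y j| ≤ s := by
    intro z hz j
    have h1 := round_near ((N : ℝ) * z j)
    have h2 : |z j - y' j| ≤ ρ := (coord_le j).trans (Metric.mem_ball.1 hz).le
    have h3 : |(N : ℝ) * z j - Y j| ≤ N * ρ := by
      rw [hYdef]
      simp only
      rw [← mul_sub, abs_mul, abs_of_pos hNR]
      exact mul_le_mul_of_nonneg_left h2 hNR.le
    calc |((round ((N : ℝ) * z j) : ℤ) : ℝ) - Y j|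
        = |(((round ((N : ℝ) * z j) : ℤ) : ℝ) - (N : ℝ) * z j) + ((N : ℝ) * z j - Y j)| := by
          congr 1; ring
      _ ≤ 1 / 2 + N * ρ := (abs_add_le _ _).trans (add_le_add h1 h3)
      _ = s := by rw [hs]; ring
  have hconst : ∀ z ∈ Metric.ball y' ρ, ((fun j => round ((N : ℝ) * z j)) ∈ Dp N A ↔
      (fun j => round ((N : ℝ) * y' j)) ∈ Dp N A) := by
    intro z hz
    exact const_of hno _ _ _ rfl (hsite z hz) (hsite y' (Metric.mem_ball_self hρ0))
  have hzM : ∀ z ∈ Metric.ball y' ρ, ∀ j, |z j| ≤ 1 + ρ := by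
    intro z hz j
    have h2 : |z j - y' j| ≤ ρ := (coord_le j).trans (Metric.mem_ball.1 hz).le
    have h3 := hy'Q j
    calc |z j| = |(z j - y' j) + y' j| := by congr 1; ring
      _ ≤ ρ + 1 := (abs_add_le _ _).trans (add_le_add h2 h3)
      _ = 1 + ρ := by ring
  -- if the site is in the box then the point is near the cube
  have hbox : ∀ z : E3, (fun j => round ((N : ℝ) * z j)) ∈ Vb N → ∀ j, |z j| ≤ 1 + 1 / (N : ℝ) := by
    intro z hz j
    rw [mem_Vb] at hz
    have h1 : |((round ((N : ℝ) * z j) : ℤ) : ℝ)| ≤ N := by exact_mod_cast hz j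
    have h2 := round_near ((N : ℝ) * z j)
    have h3 : |(N : ℝ) * z j| ≤ N + 1 / 2 := by
      calc |(N : ℝ) * z j| = |((round ((N : ℝ) * z j) : ℤ) : ℝ) -
            (((round ((N : ℝ) * z j) : ℤ) : ℝ) - (N : ℝ) * z j)| := by congr 1; ring
        _ ≤ N + 1 / 2 := (abs_sub _ _).trans (add_le_add h1 h2)
    rw [abs_mul, abs_of_pos hNR] at h3
    have h4 : |z j| ≤ (N + 1 / 2) / N := by
      rw [le_div_iff₀ hNR]
      linarith
    refine h4.trans ?_
    rw [add_div, div_self hNR.ne']
    gcongr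
    norm_num
  set Bad : Set E3 := {y | y ∈ Qc ∧ ¬ (y ∈ region N A ↔ y ∈ K)} with hBad
  have hvB : volume Bad ≤ α / 2 := hv
  have hL := hN₁ N hNN1
  have hfin : ∀ S : Set E3, S ⊆ Bad ∪ (LA (1 / (N : ℝ)) ∪ LB (1 + ρ) (1 / (N : ℝ))) → volume S < α := by
    intro S hS
    calc volume S ≤ volume Bad + volume (LA (1 / (N : ℝ)) ∪ LB (1 + ρ) (1 / (N : ℝ))) :=
          (measure_mono hS).trans (measure_union_le _ _)
      _ < α / 2 + α / 2 := by
          refine ENNReal.add_lt_add_of_le_of_lt ?_ hvB hL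
          exact ne_top_of_le_ne_top (ENNReal.div_lt_top (ne_top_of_le_ne_top ENNReal.one_ne_top hα1)
            (by norm_num)).ne hvB
      _ = α := ENNReal.add_halves α
  by_cases hside : (fun j => round ((N : ℝ) * y' j)) ∈ Dp N A
  · -- all sites are below
    have h1 : volume (Metric.ball y' ρ \ extend K) < α := by
      refine hfin _ ?_
      rintro z ⟨hz, hzK⟩
      have hzD := (hconst z hz).2 hside
      by_cases hzQ : z ∈ Qc
      · left
        refine ⟨hzQ, ?_⟩
        have h2 : z ∈ region N A := ⟨hzQ, by rw [hbel]; exact hzD⟩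
        have h3 : z ∉ K := fun h => hzK (Or.inl ⟨hzQ, h⟩)
        exact fun h => h3 (h.1 h2)
      · right
        have hz2 : 0 < z 2 := by
          by_contra h
          exact hzK (Or.inr ⟨hzQ, not_lt.1 h⟩)
        by_cases hzV : (fun j => round ((N : ℝ) * z j)) ∈ Vb N
        · left
          exact ⟨hbox z hzV, hzQ⟩
        · right
          rw [hout _ hzV] at hzD
          refine ⟨⟨hz2, ?_⟩, hzM z hz⟩
          have h4 := abs_le.1 (round_near ((N : ℝ) * z 2))
          have h5 : ((round ((N : ℝ) * z 2) : ℤ) : ℝ) ≤ 0 := by exact_mod_cast hzD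
          rw [le_div_iff₀ hNR]
          nlinarith
    exact absurd ((hα y' hy't).trans (min_le_right _ _)) (not_le.2 h1)
  · have h1 : volume (Metric.ball y' ρ ∩ extend K) < α := by
      refine hfin _ ?_
      rintro z ⟨hz, hzK⟩
      have hzD : (fun j => round ((N : ℝ) * z j)) ∉ Dp N A := fun h => hside ((hconst z hz).1 h)
      rcases hzK with ⟨hzQ, hzK⟩ | ⟨hzQ, hz2⟩
      · left
        refine ⟨hzQ, fun h => ?_⟩
        have h2 := (h.2 hzK).2
        rw [hbel] at h2
        exact hzD h2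
      · right
        left
        by_cases hzV : (fun j => round ((N : ℝ) * z j)) ∈ Vb N
        · exact ⟨hbox z hzV, hzQ⟩
        · exfalso
          rw [hout _ hzV] at hzD
          apply hzD
          have h5 : (N : ℝ) * z 2 ≤ 0 := mul_nonpos_of_nonneg_of_nonpos hNR.le hz2
          have h6 : round ((N : ℝ) * z 2) ≤ round (0 : ℝ) := by
            rw [round_eq, round_eq]
            exact Int.floor_le_floor (by linarith)
          simpa using h6
    exact absurd ((hα y' hy't).trans (min_le_left _ _)) (not_le.2 h1)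

end Pool.ISH
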